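import Pool.Agent.H7.Bir.Map
import Pool.Agent.H17EF.PNDefs
import Pool.Agent.H62.SA.Defs

/-!
# Complements in families over complex tori: the definitions of the final theorem

`A = ℂ^n / Λ` is a complex torus, `n = k + 1`; `pt Λ y` is the point of `A` given by `y ∈ ℂ^n`.  `X` is a closed analytic subset of `A × ℙ^m`, that is a family of projective varieties over `A`.

* `IsCurveIn`, `IsHyperbolicModulo`, `KobayashiPositive`, `IsFiniteOver`: for a subset `T` of `A × ℙ^m` and a set `S` of special points of `A`, the holomorphic curves in `T`; hyperbolicity of `T` modulo the fibres over `S`; and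
  quasi-projective varieties with a map to `T` which is finite on the closure.
* `IsHolomorphicForm`: forms in `x ∈ ℂ^(m+1)` whose coefficients are holomorphic functions of `y`; `IsAnalytic`: closed analytic subsets of `A × ℙ^m`; `IsAnalyticIn`: of `A`.  `IsSemipositive`, `IsAmple`: `F` is a section of
  `L ⊠ O(d)`, `d > 0`, with `L` a semipositive (positive) line bundle on `A`.  `outside Λ X F`: the complement in `X` of the divisors `{F j = 0}`.
* `IsComplement`: the class of the complements `T` which are considered: `IsReducedDivisor` (divisors of `A × ℙ¹`), `IsHyperbolicOff` (families which are hyperbolic outside the fibres over `S`).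
-/

set_option autoImplicit false

open Topology Filter MvPolynomial
open Pool.Agent.H17 (PN VanishesAt HolomorphicInto puncturedDisc)
open Pool.Agent.H62.SA (locVar)
open Pool.Agent.H17EF (projVar)
open Pool.Agent.H7.Bir (vals rmap)

noncomputable section

namespace Pool.Agent.COT

/-- `ℂ^n` -/
abbrev Cn (n : ℕ) : Type := Fin n → ℂ

/-- the subgroups of `ℂ^(k+1)` -/
abbrev Sub (k : ℕ) : Type := AddSubgroup (Cn (k + 1))

variable {k : ℕ}

/-- the torus `ℂ^(k+1) / Λ` -/
abbrev Torus (Λ : Sub k) : Type := Cn (k + 1) ⧸ Λ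

/-- the point of the torus given by `y` -/
def pt (Λ : Sub k) (y : Cn (k + 1)) : Torus Λ := (y : Cn (k + 1) ⧸ Λ)

variable {N m q : ℕ}

/-- the product `A × ℙ^m` -/
abbrev Prd (Λ : Sub k) (m : ℕ) : Type := Torus Λ × PN m

/-- functions on `ℂ^(k+1)` with values in the polynomials in `m + 1` variables -/
abbrev Poly (k m : ℕ) : Type := Cn (k + 1) → MvPolynomial (Fin (m + 1)) ℂ

/-! ### Holomorphic curves -/

/-- `t` is holomorphic on the open set `U` as a map to the torus. -/
def HolomorphicIntoTorus (Λ : Sub k) (t : ℂ → Torus Λ) (U : Set ℂ) : Prop :=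
  ∀ z₀ ∈ U, ∃ h : ℂ → Cn (k + 1), AnalyticAt ℂ h z₀ ∧ ∀ᶠ z in 𝓝 z₀, t z = pt Λ (h z)

/-- `(t, g)` is a holomorphic map from the open set `U` to the subset `T` of `A × ℙ^m`. -/
structure IsCurveIn (Λ : Sub k) (T : Set (Prd Λ m)) (t : ℂ → Torus Λ) (g : ℂ → PN m) (U : Set ℂ) : Prop where
  torus : HolomorphicIntoTorus Λ t U
  proj : HolomorphicInto g U
  mem : ∀ z ∈ U, (t z, g z) ∈ T

/-- Hyperbolicity of the subset `T` of `A × ℙ^m` modulo the fibres over the subset `S` of `A`. -/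
structure IsHyperbolicModulo (Λ : Sub k) (T : Set (Prd Λ m)) (S : Set (Torus Λ)) : Prop where
  /-- there is a constant `C` such that the component in `A` of every holomorphic map from the unit disc to `T` has derivative at most `C` at `0` -/
  discs : ∃ C : ℝ, ∀ (h : ℂ → Cn (k + 1)) (g : ℂ → PN m), AnalyticAt ℂ h 0 → IsCurveIn Λ T (fun z => pt Λ (h z)) g (Metric.ball 0 1) → ‖deriv h 0‖ ≤ C
  /-- every entire curve in `T` lies in a fibre, and is constant if this is not a fibre over a point of `S` -/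
  entire : ∀ (t : ℂ → Torus Λ) (g : ℂ → PN m), IsCurveIn Λ T t g Set.univ → ∀ z w, t z = t w ∧ (t z ∉ S → g z = g w)
  /-- every holomorphic map from the punctured disc to `T` extends to a holomorphic map from the disc to `A × ℙ^m`, if it does not map into the fibres over `S`; the component in `A` extends in any case -/
  punctured : ∀ (t : ℂ → Torus Λ) (g : ℂ → PN m), IsCurveIn Λ T t g puncturedDisc →
    (∃ t' : ℂ → Torus Λ, HolomorphicIntoTorus Λ t' (Metric.ball 0 1) ∧ ∀ z ∈ puncturedDisc, t' z = t z) ∧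
    ((∃ z ∈ puncturedDisc, t z ∉ S) → ∃ g' : ℂ → PN m, HolomorphicInto g' (Metric.ball 0 1) ∧ ∀ z ∈ puncturedDisc, g' z = g z)

/-- The Kobayashi–Royden metric of the subset `T` of `A × ℙ^m` is bounded below near the nonempty fibres over the complement of `S` (the component in `ℙ^m`; homogeneous coordinates `φ`, Fubini–Study metric). -/
def KobayashiPositive (Λ : Sub k) (T : Set (Prd Λ m)) (S : Set (Torus Λ)) : Prop :=
  ∀ y : Cn (k + 1), pt Λ y ∉ S → (∃ p, (pt Λ y, p) ∈ T) → ∃ C : ℝ, ∀ᶠ y' : Cn (k + 1) in 𝓝 y, ∀ (t : ℂ → Torus Λ) (g : ℂ → PN m) (φ : ℂ → Cn (m + 1)),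
    IsCurveIn Λ T t g (Metric.ball 0 1) → t 0 = pt Λ y' → AnalyticAt ℂ φ 0 → (∀ᶠ z in 𝓝 (0 : ℂ), ∃ h : φ z ≠ 0, g z = Projectivization.mk ℂ (φ z) h) →
    ∀ i j, ‖φ 0 i * deriv φ 0 j - φ 0 j * deriv φ 0 i‖ ≤ C * ∑ i, ‖φ 0 i‖ ^ 2

/-- `U = locVar P G` is a quasi-projective variety, with closure `X` in `ℙ^N`, and `(u, v)` a holomorphic map from `X` to `A × ℙ^m` with finite fibres which maps `U` to `T`; a form on `ℙ^N`, not `0` on `X`, is `0` at the
points over `S`. -/
structure IsFiniteOver (P : Ideal (MvPolynomial (Fin (N + 1)) ℂ)) {s : ℕ} (G : Fin s → MvPolynomial (Fin (N + 1)) ℂ) (Λ : Sub k)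
    (T : Set (Prd Λ m)) (S : Set (Torus Λ)) (u : PN N → Torus Λ) (v : PN N → PN m) : Prop where
  /-- near every point of `X` the map `u` is given by holomorphic functions of the homogeneous coordinates -/
  torus : ∀ (x : Cn (N + 1)) (hx : x ≠ 0), Projectivization.mk ℂ x hx ∈ projVar P → ∃ υ : Cn (N + 1) → Cn (k + 1), AnalyticAt ℂ υ x ∧
    ∀ᶠ x' in 𝓝 x, ∀ hx' : x' ≠ 0, Projectivization.mk ℂ x' hx' ∈ projVar P → u (Projectivization.mk ℂ x' hx') = pt Λ (υ x')
  regular : ∀ x ∈ projVar P, ∃ (D : ℕ) (γ : Fin (m + 1) → MvPolynomial (Fin (N + 1)) ℂ), (∀ i, (γ i).IsHomogeneous D) ∧ vals γ x.rep ≠ 0 ∧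
    ∀ x' ∈ projVar P, vals γ x'.rep ≠ 0 → v x' = rmap γ x'
  finite : ∀ x ∈ projVar P, {x' | x' ∈ projVar P ∧ u x' = u x ∧ v x' = v x}.Finite
  maps : ∀ x ∈ locVar P G, (u x, v x) ∈ T
  special : ∃ (e : ℕ) (R : MvPolynomial (Fin (N + 1)) ℂ), R.IsHomogeneous e ∧ R ∉ P ∧ ∀ x ∈ projVar P, u x ∈ S → VanishesAt R x

/-! ### Families and divisors -/

/-- The torus is simple: a complex subspace `W ≠ 0` which is the real span of its lattice points is the whole space. -/
def IsSimple (Λ : Sub k) : Prop :=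
  ∀ W : Submodule ℂ (Cn (k + 1)), W ≠ ⊥ → (∀ v ∈ W, v ∈ Submodule.span ℝ {l : Cn (k + 1) | l ∈ Λ ∧ l ∈ W}) → W = ⊤

/-- `F y` is a form of degree `d` in `x ∈ ℂ^(m+1)` whose coefficients are holomorphic functions of `y` in the set `U` (used for open sets). -/
structure IsHolomorphicForm (U : Set (Cn (k + 1))) (F : Poly k m) (d : ℕ) : Prop where
  homogeneous : ∀ y ∈ U, (F y).IsHomogeneous d
  holomorphic : ∀ α, DifferentiableOn ℂ (fun y => (F y).coeff α) U

/-- `X` is a closed analytic subset of `A × ℙ^m`: near each fibre it is the set of the common zeros of finitely many forms. -/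
def IsAnalytic (Λ : Sub k) (X : Set (Prd Λ m)) : Prop :=
  ∀ y₀ : Cn (k + 1), ∃ (ρ : ℝ) (s : ℕ) (G : Fin s → Poly k m) (d : Fin s → ℕ), 0 < ρ ∧ (∀ i, IsHolomorphicForm (Metric.ball y₀ ρ) (G i) (d i)) ∧
    ∀ y ∈ Metric.ball y₀ ρ, ∀ p : PN m, (pt Λ y, p) ∈ X ↔ ∀ i, VanishesAt (G i y) p

/-- `S` is a closed analytic subset of `A`. -/
def IsAnalyticIn (Λ : Sub k) (S : Set (Torus Λ)) : Prop :=
  ∀ y₀ : Cn (k + 1), ∃ (s : ℕ) (f : Fin s → Cn (k + 1) → ℂ), (∀ i, AnalyticAt ℂ (f i) y₀) ∧ ∀ᶠ y : Cn (k + 1) in 𝓝 y₀, (pt Λ y ∈ S ↔ ∀ i, f i y = 0)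

/-- `F` is a section of `L ⊠ O(d)`, `d > 0`, for a line bundle `L` on `A`: the functions `‖F y x‖ exp (- ∑ ‖W j y‖²)` are `Λ`-periodic. -/
structure IsSection (Λ : Sub k) (F : Poly k m) {r : ℕ} (W : Fin r → Cn (k + 1) →L[ℂ] ℂ) : Prop where
  form : ∃ d, 0 < d ∧ IsHolomorphicForm Set.univ F d
  quasiPeriodic : ∀ l ∈ Λ, ∀ y, ∃ e : ℂ, ‖e‖ = Real.exp (∑ j, ‖W j (y + l)‖ ^ 2 - ∑ j, ‖W j y‖ ^ 2) ∧ F (y + l) = C e * F y

/-- The line bundle is semipositive. -/
def IsSemipositive (Λ : Sub k) (F : Poly k m) : Prop :=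
  ∃ (r : ℕ) (W : Fin r → Cn (k + 1) →L[ℂ] ℂ), IsSection Λ F W

/-- The line bundle is positive. -/
def IsAmple (Λ : Sub k) (F : Poly k m) : Prop :=
  ∃ (r : ℕ) (W : Fin r → Cn (k + 1) →L[ℂ] ℂ), (∀ y, (∀ j, W j y = 0) → y = 0) ∧ IsSection Λ F W

/-- The complement of the zeros of the `F j` in `X`. -/
def outside (Λ : Sub k) (X : Set (Prd Λ m)) (F : Fin q → Poly k m) : Set (Prd Λ m) :=
  {x | x ∈ X ∧ ∀ y : Cn (k + 1), pt Λ y = x.1 → ∀ j, ¬ VanishesAt (F j y) x.2}

/-! ### Divisors of `A × ℙ¹` -/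

/-- The binary form `f` has at least three zeros. -/
def HasThreeZeros (f : MvPolynomial (Fin 2) ℂ) : Prop :=
  ∃ p₁ p₂ p₃ : PN 1, VanishesAt f p₁ ∧ VanishesAt f p₂ ∧ VanishesAt f p₃ ∧ p₁ ≠ p₂ ∧ p₁ ≠ p₃ ∧ p₂ ≠ p₃

/-- The set of the other points of `A`. -/
def fewZeros (Λ : Sub k) (F : Poly k 1) : Set (Torus Λ) := {t | ∃ y : Cn (k + 1), pt Λ y = t ∧ ¬ HasThreeZeros (F y)}

/-- The divisor `{F = 0}` of `A × ℙ¹`, `A` simple, of degree `d ≥ 3` over `A`, is ample, has no multiple component and contains no hypersurface `Γ × ℙ¹`. -/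
structure IsReducedDivisor (Λ : Sub k) (F : Poly k 1) (d : ℕ) : Prop where
  simple : IsSimple Λ
  degree : 3 ≤ d
  form : IsHolomorphicForm Set.univ F d
  ample : IsAmple Λ F
  /-- over some point `y` the form has no multiple zeros -/
  simpleZeros : ∃ y, ∀ x : Cn 2, x ≠ 0 → eval x (F y) = 0 → ∃ i, eval x (pderiv i (F y)) ≠ 0
  /-- near a point where the form is `0` the zeros of `F y b`, `b` fixed, are not all such points -/
  codimension : ∀ y, F y = 0 → ∀ b : Cn 2, ∃ᶠ z in 𝓝 y, eval b (F z) = 0 ∧ F z ≠ 0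

/-! ### Hyperbolic families -/

/-- `g` is an entire curve in `ℙ^m` with bounded derivative (homogeneous coordinates `φ`, Fubini–Study metric). -/
def IsBrodyCurve (g : ℂ → PN m) : Prop :=
  ∃ (φ : ℂ → Cn (m + 1)) (C : ℝ), Differentiable ℂ φ ∧ ∀ z, (∃ h : φ z ≠ 0, g z = Projectivization.mk ℂ (φ z) h) ∧ ∀ i j, ‖φ z i * deriv φ z j - φ z j * deriv φ z i‖ ≤ C * ∑ i, ‖φ z i‖ ^ 2

/-- Near the fibre over `y₀` the union of the zeros of the `F j` in `X` contains finitely many families of hypersurface sections `{Q i = 0}` of the fibres of `X`, such that all entire curves with bounded derivative in the fibre over `y₀`,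
contained in or disjoint from each `{Q i = 0}`, are constant. -/
def HasHyperbolicFibre (Λ : Sub k) (X : Set (Prd Λ m)) (F : Fin q → Poly k m) (y₀ : Cn (k + 1)) : Prop :=
  ∃ (ρ : ℝ) (s : ℕ) (Q : Fin s → Poly k m) (e : Fin s → ℕ), 0 < ρ ∧ (∀ i, IsHolomorphicForm (Metric.ball y₀ ρ) (Q i) (e i)) ∧
    (∀ i, ∀ y ∈ Metric.ball y₀ ρ, ∀ p : PN m, (pt Λ y, p) ∈ X → VanishesAt (Q i y) p → ∃ j, VanishesAt (F j y) p) ∧
    ∀ g : ℂ → PN m, IsBrodyCurve g → (∀ z, (pt Λ y₀, g z) ∈ X) → (∀ i, (∀ z, VanishesAt (Q i y₀) (g z)) ∨ ∀ z, ¬ VanishesAt (Q i y₀) (g z)) → ∀ z w, g z = g w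

/-- In the fibre over `y` the union of the zeros of the `F j` contains `2 κ + 1` hypersurface sections of degree `e` in general position: any `κ + 1` of them have no common point. -/
def HasHypersurfaces (Λ : Sub k) (X : Set (Prd Λ m)) (F : Fin q → Poly k m) (κ e : ℕ) (y : Cn (k + 1)) : Prop :=
  ∃ Q : Fin (2 * κ + 1) → MvPolynomial (Fin (m + 1)) ℂ, (∀ s, (Q s).IsHomogeneous e) ∧ (∀ s, ∀ p : PN m, (pt Λ y, p) ∈ X → VanishesAt (Q s) p → ∃ j, VanishesAt (F j y) p) ∧
    ∀ I : Finset (Fin (2 * κ + 1)), I.card = κ + 1 → ∀ p : PN m, (pt Λ y, p) ∈ X → ∃ s ∈ I, ¬ VanishesAt (Q s) p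

/-- The part of the affine line `z ↦ y + z a` outside `S`. -/
def line (Λ : Sub k) (S : Set (Torus Λ)) (y a : Cn (k + 1)) : Set ℂ := {z | pt Λ (y + z • a) ∉ S}

/-- `g` is a holomorphic section of `X` over the affine line `z ↦ y + z a`, outside the fibres over `S`, which is contained in or disjoint from the set of zeros of each `F j`. -/
structure IsSectionOver (Λ : Sub k) (X : Set (Prd Λ m)) (F : Fin q → Poly k m) (S : Set (Torus Λ)) (y a : Cn (k + 1)) (g : ℂ → PN m) : Prop where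
  holomorphic : HolomorphicInto g (line Λ S y a)
  mem : ∀ z ∈ line Λ S y a, (pt Λ (y + z • a), g z) ∈ X
  inOrOff : ∀ j, (∀ z ∈ line Λ S y a, VanishesAt (F j (y + z • a)) (g z)) ∨ ∀ z ∈ line Λ S y a, ¬ VanishesAt (F j (y + z • a)) (g z)

/-- The hypotheses on the divisors `{F j = 0}` of `X`, whose complement is hyperbolic outside the fibres over the closed analytic subset `S` of `A`. -/
structure IsHyperbolicOff (Λ : Sub k) (X : Set (Prd Λ m)) (F : Fin q → Poly k m) (S : Set (Torus Λ)) : Prop where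
  analytic : IsAnalytic Λ X
  sections : ∀ j, IsSemipositive Λ (F j)
  special : IsAnalyticIn Λ S
  /-- `S` contains no image of an affine line of `ℂ^n` (for example `A` is simple and `S ≠ A`) -/
  noLines : (IsSimple Λ ∧ S ≠ Set.univ) ∨ ∀ a y : Cn (k + 1), a ≠ 0 → (line Λ S y a).Nonempty
  /-- no section of `X` over an affine line is contained in all ample divisors (for example these have no common point outside the fibres over `S`) -/
  noSections : ∀ (y a : Cn (k + 1)) (g : ℂ → PN m), a ≠ 0 → IsSectionOver Λ X F S y a g → ∃ j, IsAmple Λ (F j) ∧ ∃ z ∈ line Λ S y a, ¬ VanishesAt (F j (y + z • a)) (g z)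
  /-- for example `Q = F`, or the `{Q i = 0}` are `2 κ + 1` hypersurface sections, any `κ + 1` of which have no common point -/
  fibres : ∀ y : Cn (k + 1), pt Λ y ∉ S → HasHyperbolicFibre Λ X F y
  overSpecial : ∀ y₀ : Cn (k + 1), pt Λ y₀ ∈ S → ∃ κ e, 0 < e ∧ ∀ᶠ y : Cn (k + 1) in 𝓝 y₀, pt Λ y ∉ S → HasHypersurfaces Λ X F κ e y

/-! ### The class -/

/-- The complements `T` in families of projective varieties over the torus `A`, with the set `S` of special points of `A`. -/
inductive IsComplement (Λ : Sub k) : ∀ {m : ℕ}, Set (Prd Λ m) → Set (Torus Λ) → Prop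
  /-- the complement of a reduced ample divisor of degree `d ≥ 3` of `A × ℙ¹`, `A` simple; `S` is the set of the points over which there are less than three points of the divisor -/
  | reduced (F : Poly k 1) (d : ℕ) : IsReducedDivisor Λ F d → IsComplement Λ (outside Λ Set.univ fun _ : Fin 1 => F) (fewZeros Λ F)
  /-- the complement of divisors which is hyperbolic outside the fibres over `S` -/
  | hyperbolicOff (m q : ℕ) (X : Set (Prd Λ m)) (F : Fin q → Poly k m) (S : Set (Torus Λ)) : IsHyperbolicOff Λ X F S → IsComplement Λ (outside Λ X F) S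

end Pool.Agent.COT
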