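import Pool.Agent.PX.S.Defs
import Pool.Agent.G4.V.Defs

/-!
# Complements in families over complex tori: the definitions for the four properties

* `IsRegularTorusMap`: the map `u` from the projective variety to the torus is regular, that is, the quotients of theta functions with the same factor of automorphy are pulled back to rational functions.
* `IsDivisorComplement`: complements of ample divisors of `A × ℙ¹`; `FourProperties`: the properties of the Green–Griffiths–Lang conjecture.
-/

set_option autoImplicit false

open Topology Filter MvPolynomial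
open Pool.Agent.H17 (PN VanishesAt ZariskiClosedIn)
open Pool.Agent.H17EF (projVar)
open Pool.Agent.H17LG.Variety (FunField IsLogGeneralType)
open Pool.Agent.H62.FC (Homog)
open Pool.Agent.H62.SA (locVar OnBd)
open Pool.Agent.G4F (GGLCOpen)

noncomputable section

namespace Pool.Agent.COT

variable {k m N : ℕ}

/-- The map `u` from the projective variety given by `P` to the torus is regular: if `θ`, `θ'` are theta functions with the same factor of automorphy, then near each point `x` with `θ (u x) ≠ 0` the function `θ' (u) / θ (u)` is a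
quotient of forms of the same degree. -/
def IsRegularTorusMap (P : Ideal (MvPolynomial (Fin (N + 1)) ℂ)) (Λ : Sub k) (u : PN N → Torus Λ) : Prop :=
  ∀ θ θ' : Cn (k + 1) → ℂ, Differentiable ℂ θ → Differentiable ℂ θ' → (∀ l ∈ Λ, ∀ y, ∃ e : ℂ, θ (y + l) = e * θ y ∧ θ' (y + l) = e * θ' y) →
    ∀ x ∈ projVar P, ∀ y, pt Λ y = u x → θ y ≠ 0 → ∃ (D : ℕ) (a b : MvPolynomial (Fin (N + 1)) ℂ), a.IsHomogeneous D ∧ b.IsHomogeneous D ∧ ¬ VanishesAt b x ∧
      ∀ x' ∈ projVar P, ¬ VanishesAt b x' → ∀ y', pt Λ y' = u x' → θ y' ≠ 0 ∧ θ' y' / θ y' = eval x'.rep a / eval x'.rep b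

/-- `T` is the complement of an ample divisor `{F = 0}` of `A × ℙ¹`, and `S` contains the points over which there are less than three points of the divisor. -/
inductive IsDivisorComplement (Λ : Sub k) : ∀ {m : ℕ}, Set (Prd Λ m) → Set (Torus Λ) → Prop
  | mk (F : Poly k 1) (S : Set (Torus Λ)) : IsAmple Λ F → fewZeros Λ F ⊆ S → IsDivisorComplement Λ (outside Λ Set.univ fun _ : Fin 1 => F) S

/-- The four properties of the Green–Griffiths–Lang conjecture for the quasi-projective variety `U = locVar P G`, with the exceptional set `Ξ`. -/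
structure FourProperties (P : Ideal (MvPolynomial (Fin (N + 1)) ℂ)) [P.IsPrime] {s : ℕ} (G : Fin s → MvPolynomial (Fin (N + 1)) ℂ) (Ξ : Set (PN N)) : Prop extends GGLCOpen P G Ξ where
  /-- every closed subvariety of `U` of positive dimension which is not contained in `Ξ` is of log general type -/
  all : ∀ (Q : Ideal (MvPolynomial (Fin (N + 1)) ℂ)) [Q.IsPrime], Homog Q → P ≤ Q → ¬ locVar Q G ⊆ Ξ →
    ∀ w, 1 ≤ w → (∃ z : Fin w → FunField Q, IsTranscendenceBasis ℂ z) → IsLogGeneralType (OnBd Q G (k := w))

end Pool.Agent.COT
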