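import Pool.Agent.PX.S.Four
import Pool.Agent.PX.V.Dom

/-!
# PX S DomF: the four properties and dominant regular maps
-/

set_option autoImplicit false

open Topology Filter Metric MvPolynomial
open Pool.Agent.H17 (PN VanishesAt HolomorphicInto puncturedDisc ZariskiClosedIn vanishesAt_mk_iff)
open Pool.Agent.H17GT (coordFun)
open Pool.Agent.H17LG.Variety (FunField IsLogGeneralType ratio)
open Pool.Agent.H17R (gen gen_eq_zero_iff ratio_self adjoin_ratio coordFun_ne_zero_iff ratio_ne_zero_iff)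
open Pool.Agent.H62.FC (Homog)
open Pool.Agent.H62.SA (locVar OnBd)
open Pool.Agent.H7.Bir (vals rmap mem_of_open rmap_mk)
open Pool.Agent.H7.Qup (IsDominantMap Rep exists_coord exists_eq aeval_homog eval_smul exists_compat logGT_up)
open Pool.Agent.G4F (GGLCOpen)

noncomputable section

namespace Pool.Agent.COT

variable {N M s s' : ℕ} {P : Ideal (MvPolynomial (Fin (N + 1)) ℂ)} {P' : Ideal (MvPolynomial (Fin (M + 1)) ℂ)} {G : Fin s → MvPolynomial (Fin (N + 1)) ℂ}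
  {G' : Fin s' → MvPolynomial (Fin (M + 1)) ℂ} {p : PN M → PN N}

theorem comp_component {D : ℕ} (hD : 0 < D) {γ : Fin (N + 1) → MvPolynomial (Fin (M + 1)) ℂ} (hγ : ∀ i, (γ i).IsHomogeneous D) (F : MvPolynomial (Fin (N + 1)) ℂ) (n : ℕ) :
    homogeneousComponent (D * n) (aeval γ F) = aeval γ (homogeneousComponent n F) := by
  have h1 : ∀ m, homogeneousComponent (D * n) (aeval γ (homogeneousComponent m F)) = if m = n then aeval γ (homogeneousComponent n F) else 0 := by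
    intro m
    have h2 : (aeval γ (homogeneousComponent m F)).IsHomogeneous (D * m) := aeval_homog hγ (homogeneousComponent_isHomogeneous m F)
    rw [homogeneousComponent_of_mem (n := D * m) ((mem_homogeneousSubmodule _ _).2 h2)]
    by_cases h3 : m = n
    · rw [if_pos h3, if_pos (by rw [h3]), h3]
    · rw [if_neg h3, if_neg fun h4 => h3 (Nat.eq_of_mul_eq_mul_left hD h4).symm]
  conv_lhs => rw [← sum_homogeneousComponent F, map_sum, map_sum]
  simp only [h1]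
  rw [Finset.sum_ite_eq' (Finset.range (F.totalDegree + 1)) n]
  split_ifs with h3
  · rfl
  · rw [homogeneousComponent_eq_zero _ _ (by rw [Finset.mem_range] at h3; omega), map_zero]

/-- The closure of the image of a closed subvariety. -/
theorem exists_image [P.IsPrime] [P'.IsPrime] (hP : Homog P) (hP' : Homog P') (hG' : ∀ m, ∃ n, (G' m).IsHomogeneous n) (hp : IsDominantMap P P' G G' p) (Q' : Ideal (MvPolynomial (Fin (M + 1)) ℂ))
    [Q'.IsPrime] (hQ' : Homog Q') (hPQ' : P' ≤ Q') (hne : (locVar Q' G').Nonempty) :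
    ∃ (Q : Ideal (MvPolynomial (Fin (N + 1)) ℂ)) (_ : Q.IsPrime), Homog Q ∧ P ≤ Q ∧ IsDominantMap Q Q' G G' p := by
  obtain ⟨y₁, hy₁⟩ := hne
  have hne : (locVar Q' G').Nonempty := ⟨y₁, hy₁⟩
  have hmono : ∀ {y}, y ∈ locVar Q' G' → y ∈ locVar P' G' := fun hy => locVar_mono hPQ' hy
  obtain ⟨j, hj⟩ : ∃ j, y₁.rep j ≠ 0 := by
    by_contra hcon
    push Not at hcon
    exact y₁.rep_nonzero (funext hcon)
  obtain ⟨D, γ₀, hγ₀, hv₀⟩ := hp.exists_rep (hmono hy₁)
  set γ : Fin (N + 1) → MvPolynomial (Fin (M + 1)) ℂ := fun i => X j * γ₀ i with hγdef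
  have hvals : ∀ y : PN M, vals γ y.rep = y.rep j • vals γ₀ y.rep := by
    intro y
    funext i
    change eval y.rep (X j * γ₀ i) = y.rep j * eval y.rep (γ₀ i)
    rw [map_mul, eval_X]
  have hγ : Rep P' G' p (1 + D) γ := by
    refine ⟨fun i => (isHomogeneous_X ℂ j).mul (hγ₀.hom i), fun y hy hv => ?_⟩
    have h1 : vals γ₀ y.rep ≠ 0 := fun h0 => hv (by rw [hvals, h0, smul_zero])
    rw [hγ₀.rep y hy h1]
    unfold Pool.Agent.H7.Bir.rmap
    rw [dif_pos h1, dif_pos hv, Projectivization.mk_eq_mk_iff']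
    have h2 : y.rep j ≠ 0 := fun h0 => hv (by rw [hvals, h0, zero_smul])
    exact ⟨(y.rep j)⁻¹, by rw [hvals, smul_smul, inv_mul_cancel₀ h2, one_smul]⟩
  have hv : vals γ y₁.rep ≠ 0 := by
    rw [hvals]
    exact smul_ne_zero hj hv₀
  obtain ⟨i₁, hi₁⟩ : ∃ k, eval y₁.rep (γ k) ≠ 0 := by
    by_contra hcon
    push Not at hcon
    exact hv (funext hcon)
  have hiQ : γ i₁ ∉ Q' := fun h1 => hi₁ (hy₁.1 _ h1 (1 + D) (hγ.hom i₁))
  have hmem : ∀ {F : MvPolynomial (Fin (N + 1)) ℂ}, F ∈ Q'.comap (aeval γ : MvPolynomial (Fin (N + 1)) ℂ →ₐ[ℂ] MvPolynomial (Fin (M + 1)) ℂ) ↔ aeval γ F ∈ Q' := fun {F} => Iff.rfl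
  refine ⟨Q'.comap (aeval γ : MvPolynomial (Fin (N + 1)) ℂ →ₐ[ℂ] MvPolynomial (Fin (M + 1)) ℂ), Ideal.IsPrime.comap _, ?_, ?_, ?_, ?_, ?_⟩
  · intro F hF n
    rw [hmem] at hF ⊢
    rw [← comp_component (by omega) hγ.hom]
    exact hQ' _ hF _
  · intro F hF
    rw [hmem, ← sum_homogeneousComponent F, map_sum]
    refine Ideal.sum_mem _ fun n _ => hPQ' ?_
    exact (hp.maps_iff hP' hG' hγ ⟨y₁, hmono hy₁, hv⟩ n _ (homogeneousComponent_isHomogeneous n F)).2 (hP F hF n)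
  · intro y hy
    refine ⟨fun F hF n hn => ?_, (hp.maps y (hmono hy)).2⟩
    rw [hmem] at hF
    obtain ⟨D', γ', hγ', hv'⟩ := hp.exists_rep (hmono hy)
    rw [hγ'.vanishes_iff (hmono hy) hv' hn]
    have hmem' : γ i₁ ^ n * aeval γ' F ∈ Q' := by
      refine mem_of_open hQ' hG' hne (((hγ.hom i₁).pow n).mul (aeval_homog hγ'.hom hn)) fun y hy => ?_
      have h3 : eval y.rep (aeval γ F) = 0 := hy.1 _ hF _ (aeval_homog hγ.hom hn)
      unfold VanishesAt
      rw [map_mul, map_pow, Pool.Agent.H7.Bir.eval_comp, ← eval_smul hn]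
      have h4 : eval y.rep (γ i₁) • vals γ' y.rep = eval y.rep (γ' i₁) • vals γ y.rep := by
        funext i
        have h5 := hγ.prop hγ' (hmono hy) i₁ i
        change eval y.rep (γ i₁) * eval y.rep (γ' i) = eval y.rep (γ' i₁) * eval y.rep (γ i)
        rw [h5, mul_comm]
      rw [h4, eval_smul hn, ← Pool.Agent.H7.Bir.eval_comp, h3, mul_zero]
    rcases Ideal.IsPrime.mem_or_mem inferInstance hmem' with h1 | h1
    · exact absurd (Ideal.IsPrime.mem_of_pow_mem inferInstance n h1) hiQ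
    · exact hy.1 _ h1 _ (aeval_homog hγ'.hom hn)
  · intro y hy
    obtain ⟨D', γ', h1, h2, h3⟩ := hp.regular y (hmono hy)
    exact ⟨D', γ', h1, h2, fun y' hy' => h3 y' (hmono hy')⟩
  · intro F n hF hv
    rw [hmem]
    refine mem_of_open hQ' hG' hne (aeval_homog hγ.hom hF) fun y hy => ?_
    have h2 : eval (p y).rep F = 0 := hv y hy
    by_cases h1 : vals γ y.rep = 0
    · unfold VanishesAt
      rw [Pool.Agent.H7.Bir.eval_comp, h1]
      have h3 := eval_smul hF 0 (p y).rep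
      rw [zero_smul, h2, mul_zero] at h3
      exact h3
    · exact (hγ.vanishes_iff (hmono hy) h1 hF).1 h2

/-- Equality of the dimensions. -/
theorem exists_basis_image [P.IsPrime] [P'.IsPrime] (hP' : Homog P') (hG' : ∀ m, ∃ n, (G' m).IsHomogeneous n) (hp : IsDominantMap P P' G G' p) (hne : (locVar P' G').Nonempty) {j : Fin (M + 1)}
    (hj : X j ∉ P') (halg : ∀ i : Fin (M + 1), ∃ (m D₁ : ℕ) (α : Fin (m + 1) → MvPolynomial (Fin (N + 1)) ℂ), (∀ l, (α l).IsHomogeneous D₁) ∧ α (Fin.last m) ∉ P ∧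
      ∀ (y : Fin (M + 1) → ℂ) (hy : y ≠ 0) (x : Fin (N + 1) → ℂ) (hx : x ≠ 0), Projectivization.mk ℂ y hy ∈ locVar P' G' →
        p (Projectivization.mk ℂ y hy) = Projectivization.mk ℂ x hx → ∑ l : Fin (m + 1), eval x (α l) * y i ^ (l : ℕ) * y j ^ (m - (l : ℕ)) = 0)
    {w : ℕ} (hz' : ∃ z' : Fin w → FunField P', IsTranscendenceBasis ℂ z') : ∃ z : Fin w → FunField P, IsTranscendenceBasis ℂ z := by
  obtain ⟨e, he⟩ := exists_compat hp hP' hG' hne
  let _ : Algebra (FunField P) (FunField P') := e.toRingHom.toAlgebra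
  have _ : IsScalarTower ℂ (FunField P) (FunField P') := IsScalarTower.of_algebraMap_eq fun c => (e.commutes c).symm
  obtain ⟨y₀, hy₀⟩ := hne
  obtain ⟨i₀, hi₀⟩ := exists_coord (hp.maps y₀ hy₀)
  obtain ⟨D, γ, hγ, hv⟩ := hp.exists_rep hy₀
  have hmaps := hp.maps_iff hP' hG' hγ ⟨y₀, hy₀, hv⟩
  have hcj : coordFun P' j ≠ 0 := coordFun_ne_zero_iff.2 hj
  have hci : coordFun P i₀ ≠ 0 := coordFun_ne_zero_iff.2 hi₀
  have hγi : γ i₀ ∉ P' := by
    intro h
    apply hi₀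
    rw [← hmaps 1 _ (isHomogeneous_X ℂ i₀), aeval_X]
    exact h
  have hc : gen P' j (γ i₀) ≠ 0 := fun h0 => hγi ((gen_eq_zero_iff hcj (hγ.hom i₀)).1 h0)
  have hcomp := he D γ hγ ⟨y₀, hy₀, hv⟩ j hj i₀ hi₀
  have halg' : ∀ i, IsAlgebraic (FunField P) (ratio P' i j) := by
    intro i
    obtain ⟨m, D₁, α, hα, hαP, hrel⟩ := halg i
    set Fi : MvPolynomial (Fin (M + 1)) ℂ := ∑ l : Fin (m + 1), aeval γ (α l) * X i ^ (l : ℕ) * X j ^ (m - (l : ℕ)) with hFi
    have hFhom : Fi.IsHomogeneous (D * D₁ + m) := by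
      refine IsHomogeneous.sum _ _ _ fun l _ => ?_
      have h1 := ((aeval_homog hγ.hom (hα l)).mul ((isHomogeneous_X ℂ i).pow (l : ℕ))).mul ((isHomogeneous_X ℂ j).pow (m - (l : ℕ)))
      have h2 : D * D₁ + 1 * (l : ℕ) + 1 * (m - (l : ℕ)) = D * D₁ + m := by
        have := l.2
        omega
      rw [h2] at h1
      exact h1
    have hprod : γ i₀ * Fi ∈ P' := by
      refine mem_of_open hP' hG' ⟨y₀, hy₀⟩ ((hγ.hom i₀).mul hFhom) fun y hy => ?_
      unfold VanishesAt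
      rw [map_mul]
      by_cases h1 : eval y.rep (γ i₀) = 0
      · rw [h1, zero_mul]
      · have h2 : vals γ y.rep ≠ 0 := fun h0 => h1 (congrFun h0 i₀)
        have h3 : p (Projectivization.mk ℂ y.rep y.rep_nonzero) = Projectivization.mk ℂ (vals γ y.rep) h2 := by
          rw [y.mk_rep, hγ.rep y hy h2]
          unfold Pool.Agent.H7.Bir.rmap
          rw [dif_pos h2]
        have h4 := hrel y.rep y.rep_nonzero (vals γ y.rep) h2 (by rw [y.mk_rep]; exact hy) h3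
        have h5 : eval y.rep Fi = ∑ l : Fin (m + 1), eval (vals γ y.rep) (α l) * y.rep i ^ (l : ℕ) * y.rep j ^ (m - (l : ℕ)) := by
          rw [hFi, map_sum]
          refine Finset.sum_congr rfl fun l _ => ?_
          rw [map_mul, map_mul, map_pow, map_pow, eval_X, eval_X, Pool.Agent.H7.Bir.eval_comp]
        rw [h5, h4, mul_zero]
    have hFP : Fi ∈ P' := (Ideal.IsPrime.mem_or_mem inferInstance hprod).resolve_left hγi
    have hgen := (gen_eq_zero_iff hcj hFhom).2 hFP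
    have hterm : ∀ l, gen P' j (aeval γ (α l)) = gen P' j (γ i₀) ^ D₁ * e (gen P i₀ (α l)) := by
      intro l
      unfold gen at hc hcomp ⊢
      rw [Pool.Agent.H7.Bir.aeval_comp, Pool.Agent.H7.Bir.aeval_div (hα l) hc]
      congr 1
      have h6 : (fun i => aeval (fun i => ratio P' i j) (γ i) / aeval (fun i => ratio P' i j) (γ i₀)) = fun i => e (ratio P i i₀) := by
        funext i
        rw [div_eq_iff hc, hcomp]
      rw [h6]
      exact (MvPolynomial.comp_aeval_apply (φ := e) (f := fun i => ratio P i i₀) (α l)).symm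
    have hsum : ∑ l : Fin (m + 1), e (gen P i₀ (α l)) * ratio P' i j ^ (l : ℕ) = 0 := by
      have h6 : gen P' j Fi = gen P' j (γ i₀) ^ D₁ * ∑ l : Fin (m + 1), e (gen P i₀ (α l)) * ratio P' i j ^ (l : ℕ) := by
        have h8 : gen P' j (γ i₀) ^ D₁ * ∑ l : Fin (m + 1), e (gen P i₀ (α l)) * ratio P' i j ^ (l : ℕ) = ∑ l : Fin (m + 1), gen P' j (γ i₀) ^ D₁ * (e (gen P i₀ (α l)) * ratio P' i j ^ (l : ℕ)) :=
          Finset.mul_sum _ _ _
        refine Eq.trans ?_ h8.symm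
        rw [hFi]
        unfold gen at hterm ⊢
        rw [map_sum]
        refine Finset.sum_congr rfl fun l _ => ?_
        rw [map_mul, map_mul, map_pow, map_pow, aeval_X, aeval_X, ratio_self hcj, one_pow, mul_one, hterm, mul_assoc]
      rw [h6] at hgen
      exact (mul_eq_zero.1 hgen).resolve_left (pow_ne_zero _ hc)
    refine ⟨∑ l : Fin (m + 1), Polynomial.C (gen P i₀ (α l)) * Polynomial.X ^ (l : ℕ), fun h0 => ?_, ?_⟩
    · have h7 := congrArg (fun q : Polynomial (FunField P) => q.coeff m) h0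
      simp only [Polynomial.finsetSum_coeff, Polynomial.coeff_C_mul_X_pow, Polynomial.coeff_zero] at h7
      rw [Finset.sum_eq_single (Fin.last m)] at h7
      · rw [if_pos (by simp)] at h7
        exact hαP ((gen_eq_zero_iff hci (hα _)).1 h7)
      · intro l _ hl
        rw [if_neg]
        intro h8
        exact hl (Fin.ext (by rw [Fin.val_last]; exact h8.symm))
      · intro h8
        exact absurd (Finset.mem_univ _) h8
    · rw [map_sum]
      refine Eq.trans (Finset.sum_congr rfl fun l _ => ?_) hsum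
      rw [map_mul, map_pow, Polynomial.aeval_C, Polynomial.aeval_X]
      rfl
  have _ : Algebra.IsAlgebraic (FunField P) (FunField P') := by
    have h1 : IntermediateField.adjoin ℂ (Set.range fun i => ratio P' i j) ≤ (algebraicClosure (FunField P) (FunField P')).restrictScalars ℂ := by
      rw [IntermediateField.adjoin_le_iff]
      rintro _ ⟨i, rfl⟩
      exact mem_algebraicClosure_iff.2 (halg' i)
    rw [adjoin_ratio hcj] at h1
    exact ⟨fun x => mem_algebraicClosure_iff.1 (h1 IntermediateField.mem_top)⟩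
  obtain ⟨z', hz'⟩ := hz'
  have h1 := trdeg_add_eq ℂ (FunField P) (A := FunField P')
  rw [trdeg_eq_zero_iff.2 (inferInstance : Algebra.IsAlgebraic (FunField P) (FunField P')), add_zero, ← hz'.cardinalMk_eq_trdeg] at h1
  obtain ⟨ι, z, hz⟩ := exists_isTranscendenceBasis' ℂ (FunField P)
  rw [← hz.cardinalMk_eq_trdeg] at h1
  obtain ⟨φ⟩ := Cardinal.eq.1 h1
  exact ⟨z ∘ φ.symm, hz.comp_equiv φ.symm⟩

/-- A larger exceptional set. -/
theorem GGLCOpen_union [P.IsPrime] (hP : Homog P) (hG : ∀ m, ∃ n, (G m).IsHomogeneous n) (hne : (locVar P G).Nonempty) {Ξ : Set (PN N)} (h : GGLCOpen P G Ξ) {T : MvPolynomial (Fin (N + 1)) ℂ} {e : ℕ}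
    (hT : T.IsHomogeneous e) (hTP : T ∉ P) : GGLCOpen P G (Ξ ∪ {x | x ∈ locVar P G ∧ VanishesAt T x}) := by
  obtain ⟨S, hS, hΞS⟩ := h.closed
  obtain ⟨x₁, hx₁, R, hRS, hRx₁⟩ : ∃ x ∈ locVar P G, ∃ R ∈ S, ¬ VanishesAt R x := by
    by_contra hcon
    push Not at hcon
    apply h.proper
    rw [hΞS]
    ext y
    exact ⟨fun hy => hy.1, fun hy => ⟨hy, fun R hR => hcon y hy R hR⟩⟩
  obtain ⟨nR, hnR⟩ := hS R hRS
  have hRP : R ∉ P := fun h1 => hRx₁ (hx₁.1 R h1 nR hnR)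
  have hmul : ∀ {A B : MvPolynomial (Fin (N + 1)) ℂ} {x : PN N}, VanishesAt (A * B) x ↔ VanishesAt A x ∨ VanishesAt B x := by
    intro A B x
    unfold VanishesAt
    rw [map_mul, mul_eq_zero]
  refine ⟨⟨(fun R => R * T) '' S, ?_, ?_⟩, ?_, h.logGeneralType, fun f hf hfU ⟨z, hz, hz'⟩ => h.picard f hf hfU ⟨z, hz, fun h1 => hz' (Or.inl h1)⟩, fun f hf hfU hn z => Or.inl (h.brody f hf hfU hn z),
    fun Q _ hQ hPQ hQΞ hz => h.strongly Q hQ hPQ (fun h1 => hQΞ (h1.trans Set.subset_union_left)) hz⟩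
  · rintro _ ⟨R, hR, rfl⟩
    obtain ⟨n, hn⟩ := hS R hR
    exact ⟨n + e, hn.mul hT⟩
  · ext x
    constructor
    · rintro (h1 | h1)
      · rw [hΞS] at h1
        refine ⟨h1.1, ?_⟩
        rintro _ ⟨R, hR, rfl⟩
        exact hmul.2 (Or.inl (h1.2 R hR))
      · refine ⟨h1.1, ?_⟩
        rintro _ ⟨R, hR, rfl⟩
        exact hmul.2 (Or.inr h1.2)
    · rintro ⟨h1, h2⟩
      by_cases h3 : VanishesAt T x
      · exact Or.inr ⟨h1, h3⟩
      · refine Or.inl ?_
        rw [hΞS]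
        exact ⟨h1, fun R hR => (hmul.1 (h2 _ ⟨R, hR, rfl⟩)).resolve_right h3⟩
  · intro heq
    have h4 : R * T ∈ P := by
      refine mem_of_open hP hG hne (hnR.mul hT) fun x hx => ?_
      rw [← heq] at hx
      rcases hx with h1 | h1
      · rw [hΞS] at h1
        exact hmul.2 (Or.inl (h1.2 R hRS))
      · exact hmul.2 (Or.inr h1.2)
    rcases Ideal.IsPrime.mem_or_mem inferInstance h4 with h5 | h5
    · exact hRP h5
    · exact hTP h5

/-- **Dominant regular maps of quasi-projective varieties of the same dimension.** -/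
theorem four_dominant {k : ℕ} [P.IsPrime] [P'.IsPrime] (hP : Homog P) (hP' : Homog P') (hz : ∃ z : Fin (k + 1) → FunField P, IsTranscendenceBasis ℂ z)
    (hz' : ∃ z' : Fin (k + 1) → FunField P', IsTranscendenceBasis ℂ z') (hG : ∀ m, ∃ n, (G m).IsHomogeneous n) (hG' : ∀ m, ∃ n, (G' m).IsHomogeneous n) (hp : IsDominantMap P P' G G' p)
    {Ξ : Set (PN N)} (h : FourProperties P G Ξ) : ∃ Ξ' : Set (PN M), FourProperties P' G' Ξ' := by
  obtain ⟨Ξ₀, h₀⟩ := Pool.Agent.PXF.gglo_dominant hP hP' hz hz' hG hG' hp h.toGGLCOpen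
  obtain ⟨y₀, hy₀⟩ := hp.nonempty
  have hne : (locVar P' G').Nonempty := ⟨y₀, hy₀⟩
  obtain ⟨z, hz1⟩ := hz
  obtain ⟨z', hz1'⟩ := hz'
  obtain ⟨S, hS, hΞS⟩ := h.closed
  obtain ⟨x₁, hx₁, R, hRS, hRx₁⟩ : ∃ x ∈ locVar P G, ∃ R ∈ S, ¬ VanishesAt R x := by
    by_contra hcon
    push Not at hcon
    apply h.proper
    rw [hΞS]
    ext y
    exact ⟨fun hy => hy.1, fun hy => ⟨hy, fun R hR => hcon y hy R hR⟩⟩
  obtain ⟨nR, hnR⟩ := hS R hRS
  have hRP : R ∉ P := fun h1 => hRx₁ (hx₁.1 R h1 nR hnR)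
  have hRv : ∀ x ∈ Ξ, VanishesAt R x := by
    intro x hx
    rw [hΞS] at hx
    exact hx.2 R hRS
  obtain ⟨j, hj⟩ := exists_coord hy₀
  choose m D₁ α hα hαP hrel using exists_eq hp hP' hG' hne hz1 hz1' hj
  obtain ⟨D, γ, hγ, hv⟩ := hp.exists_rep hy₀
  have hmaps := hp.maps_iff hP' hG' hγ ⟨y₀, hy₀, hv⟩
  obtain ⟨k₀, hk₀⟩ : ∃ k, eval y₀.rep (γ k) ≠ 0 := by
    by_contra hcon
    push Not at hcon
    exact hv (funext hcon)
  have hkP : γ k₀ ∉ P' := fun h1 => hk₀ (hy₀.1 _ h1 D (hγ.hom k₀))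
  set B : MvPolynomial (Fin (N + 1)) ℂ := R * ∏ i, α i (Fin.last (m i)) with hB
  have hBhom : B.IsHomogeneous (nR + ∑ i, D₁ i) := hnR.mul (IsHomogeneous.prod _ _ _ fun i _ => hα i _)
  have hBP : B ∉ P := by
    intro h1
    rcases Ideal.IsPrime.mem_or_mem inferInstance h1 with h2 | h2
    · exact hRP h2
    · obtain ⟨i, -, h3⟩ := (Ideal.IsPrime.prod_mem_iff (p := P)).1 h2
      exact hαP i h3
  set T : MvPolynomial (Fin (M + 1)) ℂ := aeval γ B * γ k₀ * X j with hT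
  have hThom : T.IsHomogeneous (D * (nR + ∑ i, D₁ i) + D + 1) := ((aeval_homog hγ.hom hBhom).mul (hγ.hom k₀)).mul (isHomogeneous_X ℂ j)
  have hTP : T ∉ P' := by
    intro h1
    rcases Ideal.IsPrime.mem_or_mem inferInstance h1 with h2 | h2
    · rcases Ideal.IsPrime.mem_or_mem inferInstance h2 with h3 | h3
      · exact hBP ((hmaps _ B hBhom).1 h3)
      · exact hkP h3
    · exact hj h2
  have key : ∀ y ∈ locVar P' G', ¬ VanishesAt T y → y.rep j ≠ 0 ∧ ¬ VanishesAt R (p y) ∧ ∀ i, ¬ VanishesAt (α i (Fin.last (m i))) (p y) := by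
    intro y hy hTy
    unfold VanishesAt at hTy
    rw [hT, map_mul, map_mul, mul_eq_zero, mul_eq_zero, not_or, not_or, eval_X] at hTy
    obtain ⟨⟨h1, h2⟩, h3⟩ := hTy
    have h4 : vals γ y.rep ≠ 0 := fun h0 => h2 (congrFun h0 k₀)
    have h5 : ¬ VanishesAt B (p y) := by
      rw [hγ.vanishes_iff hy h4 hBhom]
      exact h1
    unfold VanishesAt at h5
    rw [hB, map_mul, mul_eq_zero, not_or, map_prod, Finset.prod_eq_zero_iff] at h5
    push Not at h5
    exact ⟨h3, h5.1, fun i => h5.2 i (Finset.mem_univ i)⟩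
  refine ⟨_, ⟨GGLCOpen_union hP' hG' hne h₀ hThom hTP, fun Q' _ hQ' hPQ' hQΞ w hw hzw => ?_⟩⟩
  obtain ⟨y, hyQ, hy⟩ := Set.not_subset.1 hQΞ
  have hyP : y ∈ locVar P' G' := locVar_mono hPQ' hyQ
  obtain ⟨h1, h2, h3⟩ := key y hyP fun h4 => hy (Or.inr ⟨hyP, h4⟩)
  obtain ⟨Q, _, hQ, hPQ, hpQ⟩ := exists_image hP hP' hG' hp Q' hQ' hPQ' ⟨y, hyQ⟩
  have hjQ : X j ∉ Q' := by
    intro h4
    apply h1
    have h5 := hyQ.1 _ h4 1 (isHomogeneous_X ℂ j)
    unfold VanishesAt at h5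
    rwa [eval_X] at h5
  have hzQ : ∃ z : Fin w → FunField Q, IsTranscendenceBasis ℂ z := by
    refine exists_basis_image hQ' hG' hpQ ⟨y, hyQ⟩ hjQ (fun i => ⟨m i, D₁ i, α i, hα i, fun h4 => h3 i ((hpQ.maps y hyQ).1 _ h4 _ (hα i _)), fun y' hy' x hx h5 h6 => ?_⟩) hzw
    exact hrel i y' hy' x hx (locVar_mono hPQ' h5) h6
  have hlg : IsLogGeneralType (OnBd Q G (k := w)) := h.all Q hQ hPQ (fun h4 => h2 (hRv _ (h4 (hpQ.maps y hyQ)))) w hw hzQ
  exact logGT_up hpQ hQ' hG hG' ⟨y, hyQ⟩ hzQ hzw hlg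

end Pool.Agent.COT
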