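import Pool.Agent.PX.S.DomF
import Pool.Agent.LG.Zl

/-!
# PX S Fin4: the four properties: the final statement
-/

set_option autoImplicit false

open Topology Filter Metric MvPolynomial
open Pool.Agent.H17 (PN VanishesAt HolomorphicInto puncturedDisc ZariskiClosedIn vanishesAt_mk_iff)
open Pool.Agent.H17GT (coordFun)
open Pool.Agent.H17LG.Variety (FunField IsLogGeneralType ratio)
open Pool.Agent.H17R (coordFun_ne_zero_iff)
open Pool.Agent.H62.FC (Homog)
open Pool.Agent.H62.SA (locVar OnBd)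
open Pool.Agent.H7.Qup (IsDominantMap exists_coord)
open Pool.Agent.PX (tht thetaForm_of)

noncomputable section

namespace Pool.Agent.COT

variable {k m : ℕ} {Λ : Sub k}

theorem lgthm (hspan : Submodule.span ℝ (Λ : Set (Cn (k + 1))) = ⊤) {F : Poly k 1} (hF : IsAmple Λ F) : LGThm Λ F := by
  intro N s Q _ G u v h w hw ⟨z, hz⟩
  obtain ⟨r, W, hW, hsec⟩ := hF
  obtain ⟨d, hd, hhol⟩ := hsec.form
  have hF : IsAmple Λ F := ⟨r, W, hW, hsec⟩
  obtain ⟨x, hx, -⟩ := h.few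
  obtain ⟨j₀, hj₀⟩ := exists_coord hx
  have hj := coordFun_ne_zero_iff.2 hj₀
  exact Pool.Agent.H17LG.isLogGeneralType_translate (bd_iff hj) (Pool.Agent.LG.lg_final hspan (thetaForm_of hhol.to (ample_to hF)) (geo_of hhol hF h hj) hw hz)

/-- The four properties for `U` and for the varieties which dominate `U`. -/
theorem four_main (hspan : Submodule.span ℝ (Λ : Set (Cn (k + 1))) = ⊤) (hΛ : Pool.Agent.TG.Lat Λ) {T : Set (Prd Λ m)} {S : Set (Torus Λ)} (hT : IsDivisorComplement Λ T S) (H : IsHyperbolicModulo Λ T S)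
    {N c s : ℕ} (P : Ideal (MvPolynomial (Fin (N + 1)) ℂ)) [P.IsPrime] (G : Fin s → MvPolynomial (Fin (N + 1)) ℂ) (u : PN N → Torus Λ) (v : PN N → PN m) (hP : Homog P)
    (hG : ∀ i, ∃ n, (G i).IsHomogeneous n) (hne : (locVar P G).Nonempty) (hdim : ∃ z : Fin (c + 1) → FunField P, IsTranscendenceBasis ℂ z) (hU : IsFiniteOver P G Λ T S u v)
    (hu : IsRegularTorusMap P Λ u) : (∃ Ξ : Set (PN N), FourProperties P G Ξ) ∧
      ∀ (M s' : ℕ) (P' : Ideal (MvPolynomial (Fin (M + 1)) ℂ)) [P'.IsPrime] (G' : Fin s' → MvPolynomial (Fin (M + 1)) ℂ) (p : PN M → PN N),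
        Homog P' → (∀ i, ∃ n, (G' i).IsHomogeneous n) → (∃ z : Fin (c + 1) → FunField P', IsTranscendenceBasis ℂ z) → IsDominantMap P P' G G' p → ∃ Ξ : Set (PN M), FourProperties P' G' Ξ := by
  cases hT with
  | mk F S hF hS =>
    obtain ⟨Ξ, h⟩ := four_of hΛ hS (lgthm hspan hF) H hP hG hne hdim hU hu
    exact ⟨⟨Ξ, h⟩, fun M s' P' _ G' p hP' hG' hz' hp => four_dominant hP hP' hdim hz' hG hG' hp h⟩

end Pool.Agent.COT
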