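import Pool.Agent.PX.S.Geo
import Pool.Agent.PX.F.Ggl

/-!
# PX S Four: the four properties for the varieties over the complement of an ample divisor of `A × ℙ¹`
-/

set_option autoImplicit false

open Topology Filter Metric MvPolynomial
open Pool.Agent.H17 (PN VanishesAt HolomorphicInto puncturedDisc ZariskiClosedIn)
open Pool.Agent.H17EF (projVar)
open Pool.Agent.H17GT (coordFun)
open Pool.Agent.H17LG.Variety (FunField IsLogGeneralType ratio)
open Pool.Agent.H17R (coordFun_ne_zero_iff)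
open Pool.Agent.H62.FC (Homog)
open Pool.Agent.H62.SA (locVar OnBd)
open Pool.Agent.G4F (GGLCOpen)
open Pool.Agent.H7.Bir (vals rmap)
open Pool.Agent.TG (Lat)
open Pool.Agent.PX (tht thetaForm_of curve_of ext_of_finite y_brody)
open Pool.Agent.LG (BdG Geo)

noncomputable section

namespace Pool.Agent.COT

variable {k N s : ℕ} {Λ : Sub k}

/-- A version of `y_gglo` in which the exceptional set is given. -/
theorem gglo_form (hΛ : Lat Λ) {P : Ideal (MvPolynomial (Fin (N + 1)) ℂ)} [P.IsPrime] (hP : Homog P) {m : ℕ} {G : Fin s → MvPolynomial (Fin (N + 1)) ℂ} (hG : ∀ m, ∃ n, (G m).IsHomogeneous n)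
    (hne : (locVar P G).Nonempty) {c : ℕ} (hdim : ∃ z : Fin c → FunField P, IsTranscendenceBasis ℂ z) {T : Set (Prd Λ m)} {S : Set (Torus Λ)}
    (H : PXF.IsHyperbolicModulo Λ T S) {u : PN N → Torus Λ} {v : PN N → PN m} (h : PXF.IsFiniteOver P G Λ T S u v)
    {e : ℕ} {R : MvPolynomial (Fin (N + 1)) ℂ} (hRe : R.IsHomogeneous e) (hRP : R ∉ P) (hR : ∀ x ∈ projVar P, u x ∈ S → VanishesAt R x)
    (hgt : IsLogGeneralType (K := FunField P) (k := c) (OnBd P G)) : GGLCOpen P G {x | x ∈ locVar P G ∧ VanishesAt R x} := by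
  have hclosed : ZariskiClosedIn (locVar P G) {x | x ∈ locVar P G ∧ VanishesAt R x} := by
    refine ⟨{R}, fun S hS => ?_, ?_⟩
    · rw [Set.mem_singleton_iff.1 hS]
      exact ⟨e, hRe⟩
    · ext x
      constructor
      · rintro ⟨h1, h2⟩
        refine ⟨h1, fun S hS => ?_⟩
        rw [Set.mem_singleton_iff.1 hS]
        exact h2
      · rintro ⟨h1, h2⟩
        exact ⟨h1, h2 R rfl⟩
  have hbrody : ∀ f : ℂ → PN N, HolomorphicInto f Set.univ → (∀ z, f z ∈ locVar P G) → (∃ z w, f z ≠ f w) →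
      ∀ z, f z ∈ {x | x ∈ locVar P G ∧ VanishesAt R x} :=
    fun f hf hfU hn z => ⟨hfU z, y_brody hP H h hR hf hfU hn z⟩
  refine ⟨hclosed, ?_, ?_, ?_, hbrody, ?_⟩
  · intro heq
    apply hRP
    refine Pool.Agent.H7.Bir.mem_of_open hP hG hne hRe fun x hx => ?_
    rw [← heq] at hx
    exact hx.2
  · rintro w _ ⟨z', hz'⟩
    obtain ⟨z, hz⟩ := hdim
    obtain rfl := Pool.Agent.H22.TB.eq_of_basis hz hz'
    exact hgt
  · intro f hf hfU hfΞ
    have hc := curve_of h hf (isOpen_ball.sdiff isClosed_singleton) hfU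
    obtain ⟨⟨t', ht', htt⟩, hg⟩ := H.punctured _ _ hc
    obtain ⟨z, hz, hzΞ⟩ := hfΞ
    obtain ⟨g', hg', hgg⟩ := hg ⟨z, hz, fun h3 => hzΞ ⟨hfU z hz, hR _ (hfU z hz).1 h3⟩⟩
    exact ext_of_finite hP hΛ h hf (fun z hz => (hfU z hz).1) ht' hg' htt hgg
  · exact fun Q _ hQ hPQ hQΞ hz' => Pool.Agent.G4F.strongly_open hG hclosed hbrody Q hQ hPQ hQΞ hz'

/-- The theorem on varieties of log general type. -/
def LGThm (Λ : Sub k) (F : Poly k 1) : Prop :=
  ∀ {N s : ℕ} (Q : Ideal (MvPolynomial (Fin (N + 1)) ℂ)) [Q.IsPrime] (G : Fin s → MvPolynomial (Fin (N + 1)) ℂ) (u : PN N → Torus Λ) (v : PN N → PN 1), LGData Λ F Q G u v →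
    ∀ w, 1 ≤ w → (∃ z : Fin w → FunField Q, IsTranscendenceBasis ℂ z) → IsLogGeneralType (K := FunField Q) (k := w) (OnBd Q G)

theorem projVar_mono {P Q : Ideal (MvPolynomial (Fin (N + 1)) ℂ)} (h : P ≤ Q) : projVar Q ⊆ projVar P := fun _ hx F hF n hn => hx F (h hF) n hn

theorem locVar_mono {P Q : Ideal (MvPolynomial (Fin (N + 1)) ℂ)} {G : Fin s → MvPolynomial (Fin (N + 1)) ℂ} (h : P ≤ Q) : locVar Q G ⊆ locVar P G := fun _ hx => ⟨fun F hF n hn => hx.1 F (h hF) n hn, hx.2⟩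

/-- The four properties. -/
theorem four_of (hΛ : Lat Λ) {F : Poly k 1} {S : Set (Torus Λ)} (hS : fewZeros Λ F ⊆ S) (hlg : LGThm Λ F) (H : IsHyperbolicModulo Λ (outside Λ Set.univ fun _ : Fin 1 => F) S)
    {P : Ideal (MvPolynomial (Fin (N + 1)) ℂ)} [P.IsPrime] (hP : Homog P) {G : Fin s → MvPolynomial (Fin (N + 1)) ℂ} (hG : ∀ m, ∃ n, (G m).IsHomogeneous n)
    (hne : (locVar P G).Nonempty) {c : ℕ} (hdim : ∃ z : Fin (c + 1) → FunField P, IsTranscendenceBasis ℂ z) {u : PN N → Torus Λ} {v : PN N → PN 1}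
    (h : IsFiniteOver P G Λ (outside Λ Set.univ fun _ : Fin 1 => F) S u v) (hu : IsRegularTorusMap P Λ u) : ∃ Ξ : Set (PN N), FourProperties P G Ξ := by
  obtain ⟨e, R, hRe, hRP, hR⟩ := h.special
  have key : ∀ (Q : Ideal (MvPolynomial (Fin (N + 1)) ℂ)) [Q.IsPrime], Homog Q → P ≤ Q → ¬ locVar Q G ⊆ {x | x ∈ locVar P G ∧ VanishesAt R x} →
      ∀ w, 1 ≤ w → (∃ z : Fin w → FunField Q, IsTranscendenceBasis ℂ z) → IsLogGeneralType (OnBd Q G (k := w)) := by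
    intro Q _ hQ hPQ hQR w hw hz
    obtain ⟨x, hxQ, hx⟩ := Set.not_subset.1 hQR
    refine hlg Q G u v ⟨hQ, hG, fun x hx hxm => ?_, fun x hx => ?_, fun x hx => ?_, fun x hx => h.maps x (locVar_mono hPQ hx), fun θ θ' h1 h2 h3 x hx y hy hy0 => ?_, x, hxQ, fun h0 => ?_⟩ w hw hz
    · obtain ⟨υ, hυ, h1⟩ := h.torus x hx (projVar_mono hPQ hxm)
      exact ⟨υ, hυ, h1.mono fun x' h2 hx' h3 => h2 hx' (projVar_mono hPQ h3)⟩
    · obtain ⟨D, γ, h1, h2, h3⟩ := h.regular x (projVar_mono hPQ hx)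
      exact ⟨D, γ, h1, h2, fun x' hx' => h3 x' (projVar_mono hPQ hx')⟩
    · exact (h.finite x (projVar_mono hPQ hx)).subset fun x' hx' => ⟨projVar_mono hPQ hx'.1, hx'.2⟩
    · obtain ⟨D, a, b, ha, hb, h4, h5⟩ := hu θ θ' h1 h2 h3 x (projVar_mono hPQ hx) y hy hy0
      exact ⟨D, a, b, ha, hb, h4, fun x' hx' => h5 x' (projVar_mono hPQ hx')⟩
    · exact hx ⟨locVar_mono hPQ hxQ, hR x (projVar_mono hPQ hxQ.1) (hS h0)⟩
  have hP0 : ¬ locVar P G ⊆ {x | x ∈ locVar P G ∧ VanishesAt R x} := fun h0 => hRP (Pool.Agent.H7.Bir.mem_of_open hP hG hne hRe fun x hx => (h0 hx).2)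
  exact ⟨_, ⟨gglo_form hΛ hP hG hne hdim (hyperbolic_to H) h.to hRe hRP hR (key P hP le_rfl hP0 (c + 1) (by omega) hdim), key⟩⟩

end Pool.Agent.COT
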