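import Pool.Agent.PX.S.Top
import Pool.Agent.LG.GD
import Pool.Agent.H7.Qup.Bd
import Pool.Agent.H17LG.Translate

/-!
# PX S Geo: the geometric hypotheses for the quasi-projective varieties over the complement of a divisor
-/

set_option autoImplicit false

open Topology Filter Metric MvPolynomial
open Pool.Agent.H17 (PN VanishesAt HolomorphicInto puncturedDisc ZariskiClosedIn vanishesAt_mk_iff)
open Pool.Agent.H17EF (projVar)
open Pool.Agent.H17GT (coordFun functionField)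
open Pool.Agent.H17LG.Variety (FunField IsLogGeneralType ratio)
open Pool.Agent.H17R (gen gen_eq_zero_iff ratio_self adjoin_ratio coordFun_ne_zero_iff ratio_ne_zero_iff)
open Pool.Agent.H62.FC (Homog)
open Pool.Agent.H62.SA (locVar OnBd)
open Pool.Agent.H7.Bir (vals rmap vals_smul rmap_mk)
open Pool.Agent.TG (Lat)
open Pool.Agent.PX (tht thetaForm_of three_zeros_iff eval_form eq_zero_iff)
open Pool.Agent.LG (Cone GP RegAt BdG IsType Lft RegL VMap Geo)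

noncomputable section

namespace Pool.Agent.COT

variable {k N s d m : ℕ} {Λ : Sub k} {F : Poly k 1} {Q : Ideal (MvPolynomial (Fin (N + 1)) ℂ)} {G : Fin s → MvPolynomial (Fin (N + 1)) ℂ} {u : PN N → Torus Λ} {v : PN N → PN 1}

/-- `y` is over the image of `a` in the torus -/
def Lf (u : PN N → Torus Λ) (a : Fin (N + 1) → ℂ) (y : Cn (k + 1)) : Prop := ∃ h : a ≠ 0, u (Projectivization.mk ℂ a h) = pt Λ y

/-- `q` are homogeneous coordinates of the image of `a` in `ℙ^1` -/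
def Vf (v : PN N → PN 1) (a : Fin (N + 1) → ℂ) (q : Cn 2) : Prop := ∃ (h : a ≠ 0) (hq : q ≠ 0), v (Projectivization.mk ℂ a h) = Projectivization.mk ℂ q hq

theorem exists_rep_smul {a : Fin (N + 1) → ℂ} (ha : a ≠ 0) : ∃ c : ℂ, c ≠ 0 ∧ (Projectivization.mk ℂ a ha).rep = c • a := by
  obtain ⟨c, hc⟩ := Projectivization.exists_smul_eq_mk_rep ℂ a ha
  exact ⟨c, c.ne_zero, hc.symm⟩

theorem mem_of_cone {a : Fin (N + 1) → ℂ} (h : Cone Q a) : Projectivization.mk ℂ a h.1 ∈ projVar Q :=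
  fun F hF _ hn => (vanishesAt_mk_iff hn a h.1).2 (h.2 F hF)

theorem cone_of_mem (hQ : Homog Q) {a : Fin (N + 1) → ℂ} (ha : a ≠ 0) (h : Projectivization.mk ℂ a ha ∈ projVar Q) : Cone Q a := by
  refine ⟨ha, fun F hF => ?_⟩
  have h1 : ∀ n, eval a (homogeneousComponent n F) = 0 := fun n =>
    (vanishesAt_mk_iff (homogeneousComponent_isHomogeneous n F) a ha).1 (h _ (hQ F hF n) n (homogeneousComponent_isHomogeneous n F))
  rw [← sum_homogeneousComponent F, map_sum]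
  exact Finset.sum_eq_zero fun n _ => h1 n

theorem loc_of_cone (hG : ∀ i, ∃ n, (G i).IsHomogeneous n) {a : Fin (N + 1) → ℂ} (h : Cone Q a) (hm : ∃ m, eval a (G m) ≠ 0) : Projectivization.mk ℂ a h.1 ∈ locVar Q G := by
  obtain ⟨m, hm⟩ := hm
  obtain ⟨n, hn⟩ := hG m
  exact ⟨mem_of_cone h, m, fun h0 => hm ((vanishesAt_mk_iff hn a h.1).1 h0)⟩

theorem gp_of [Q.IsPrime] {j₀ : Fin (N + 1)} (hj : coordFun Q j₀ ≠ 0) : GP Q fun i => ratio Q i j₀ := by
  have h1 : ratio Q j₀ j₀ = 1 := ratio_self hj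
  refine ⟨fun h => one_ne_zero (h1.symm.trans (congrFun h j₀)), fun D F hF => gen_eq_zero_iff hj hF, ?_⟩
  rw [eq_top_iff, ← adjoin_ratio hj]
  refine IntermediateField.adjoin.mono ℂ _ _ ?_
  rintro _ ⟨i, rfl⟩
  exact ⟨i, j₀, by rw [h1, div_one]⟩

theorem bd_iff [Q.IsPrime] {j₀ : Fin (N + 1)} (hj : coordFun Q j₀ ≠ 0) {w : ℕ} (E : Pool.Agent.H23.PrimeDivisorOver (FunField Q) w) : BdG (fun i => ratio Q i j₀) G E ↔ OnBd Q G (Pool.Agent.H23.toFano E) := by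
  have h1 : ∀ i j, coordFun Q j ≠ 0 → ratio Q i j₀ / ratio Q j j₀ = ratio Q i j := by
    intro i j hj'
    rw [Pool.Agent.H7.Qup.ratio_change' (P := Q) (i := i) (i₀ := j₀) hj', mul_div_cancel_left₀ _ ((ratio_ne_zero_iff hj).2 hj')]
  unfold BdG OnBd
  refine exists_congr fun j => ?_
  rw [ratio_ne_zero_iff hj]
  refine and_congr_right fun hj' => ?_
  simp only [h1 _ j hj']
  exact Iff.rfl

/-- Theta functions of the same type have a common factor of automorphy. -/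
theorem common_factor (hF : IsHolomorphicForm Set.univ F d) (hA : IsAmple Λ F) (hne : ∃ y, F y ≠ 0) {g h : Cn (k + 1) → ℂ} (hg : IsType Λ (tht d F) m g) (hh : IsType Λ (tht d F) m h) :
    ∀ l ∈ Λ, ∀ y, ∃ e : ℂ, g (y + l) = e * g y ∧ h (y + l) = e * h y := by
  intro l hl y
  obtain ⟨r, W, -, -, hq⟩ := hA
  have hhom : ∀ y, (F y).IsHomogeneous d := fun y => hF.homogeneous y (Set.mem_univ y)
  obtain ⟨y₁, hy₁⟩ := hne
  obtain ⟨i, hi⟩ := (eq_zero_iff (hhom y₁)).1 hy₁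
  have hθ : Differentiable ℂ (tht d F i) := differentiableOn_univ.1 (hF.holomorphic _)
  -- the function is not zero near any point
  have hfreq : ∃ᶠ z in 𝓝 y, tht d F i z ≠ 0 := by
    intro hcon
    have h0 : ∀ᶠ z in 𝓝 y, tht d F i z = 0 := hcon.mono fun z hz => by simpa using hz
    have han : AnalyticOnNhd ℂ (tht d F i) Set.univ := fun z _ => Pool.Agent.PX.an_vd hθ z
    exact hi (han.eqOn_zero_of_preconnected_of_eventuallyEq_zero isPreconnected_univ (Set.mem_univ y) h0 (Set.mem_univ y₁))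
  obtain ⟨z, hz, hzi⟩ := Filter.exists_seq_forall_of_frequently hfreq
  set ρ : Cn (k + 1) → ℝ := fun y => Real.exp (∑ j, ‖W j (y + l)‖ ^ 2 - ∑ j, ‖W j y‖ ^ 2) with hρ
  have hρc : Continuous ρ := by
    refine Real.continuous_exp.comp (Continuous.sub (continuous_finsetSum _ fun j _ => ?_) (continuous_finsetSum _ fun j _ => ?_))
    · exact ((W j).continuous.comp (continuous_id.add continuous_const)).norm.pow 2
    · exact (W j).continuous.norm.pow 2
  choose e he using fun n => hq l hl (z n)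
  have h1 : ∀ n j, tht d F j (z n + l) = e n * tht d F j (z n) := by
    intro n j
    rw [tht, (he n).2, coeff_C_mul, tht]
  have h2 : ∀ {g : Cn (k + 1) → ℂ}, IsType Λ (tht d F) m g → ∀ n, g (z n + l) = e n ^ m * g (z n) := by
    intro g hg n
    have h3 := hg.2 l hl (z n) i
    rw [h1, mul_pow] at h3
    have h4 : tht d F i (z n) ^ m ≠ 0 := pow_ne_zero _ (hzi n)
    refine mul_right_cancel₀ h4 ?_
    rw [h3]
    ring
  obtain ⟨B, hB⟩ := ((hρc.tendsto y).comp hz).bddAbove_range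
  have hB' : ∀ n, e n ^ m ∈ closedBall (0 : ℂ) (B ^ m) := by
    intro n
    rw [mem_closedBall_zero_iff, norm_pow]
    refine pow_le_pow_left₀ (norm_nonneg _) ?_ m
    rw [(he n).1]
    exact hB ⟨n, rfl⟩
  obtain ⟨e', -, φ, hφ, hlim⟩ := (isCompact_closedBall (0 : ℂ) (B ^ m)).tendsto_subseq hB'
  have hzφ : Tendsto (fun n => z (φ n)) atTop (𝓝 y) := hz.comp hφ.tendsto_atTop
  refine ⟨e', ?_, ?_⟩
  · have h3 : Tendsto (fun n => g (z (φ n) + l)) atTop (𝓝 (g (y + l))) := (hg.1.continuous.tendsto _).comp (hzφ.add_const l)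
    have h4 : Tendsto (fun n => e (φ n) ^ m * g (z (φ n))) atTop (𝓝 (e' * g y)) := hlim.mul ((hg.1.continuous.tendsto _).comp hzφ)
    exact tendsto_nhds_unique (h3.congr fun n => h2 hg (φ n)) h4
  · have h3 : Tendsto (fun n => h (z (φ n) + l)) atTop (𝓝 (h (y + l))) := (hh.1.continuous.tendsto _).comp (hzφ.add_const l)
    have h4 : Tendsto (fun n => e (φ n) ^ m * h (z (φ n))) atTop (𝓝 (e' * h y)) := hlim.mul ((hh.1.continuous.tendsto _).comp hzφ)
    exact tendsto_nhds_unique (h3.congr fun n => h2 hh (φ n)) h4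

theorem reg_of (hF : IsHolomorphicForm Set.univ F d) (hA : IsAmple Λ F) (hne : ∃ y, F y ≠ 0) (hu : IsRegularTorusMap Q Λ u) : RegL Q Λ (tht d F) (Lf u) := by
  rintro m g h hg hh a y ha ⟨ha0, hy⟩ hhy
  obtain ⟨D, A, B, hAh, hBh, hB, h1⟩ := hu h g hh.1 hg.1 (common_factor hF hA hne hh hg) _ (mem_of_cone ha) y hy.symm hhy
  refine ⟨D, A, B, hAh, hBh, fun h0 => hB ((vanishesAt_mk_iff hBh a ha0).2 h0), ?_⟩
  rintro a' y' ha' ⟨ha0', hy'⟩ hB'
  obtain ⟨h2, h3⟩ := h1 _ (mem_of_cone ha') (fun h0 => hB' ((vanishesAt_mk_iff hBh a' ha0').1 h0)) y' hy'.symm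
  obtain ⟨c, hc, hrep⟩ := exists_rep_smul ha0'
  have h4 : eval (Projectivization.mk ℂ a' ha0').rep A = c ^ D * eval a' A := by
    rw [hrep]
    exact Pool.Agent.H17BP.eval_smul_form hAh c a'
  have h5 : eval (Projectivization.mk ℂ a' ha0').rep B = c ^ D * eval a' B := by
    rw [hrep]
    exact Pool.Agent.H17BP.eval_smul_form hBh c a'
  refine ⟨h2, ?_⟩
  rw [h4, h5, mul_div_mul_left _ _ (pow_ne_zero _ hc), div_eq_div_iff h2 hB'] at h3
  rw [h3, mul_comm]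

theorem lft_of
    (hu : ∀ (x : Cn (N + 1)) (hx : x ≠ 0), Projectivization.mk ℂ x hx ∈ projVar Q → ∃ υ : Cn (N + 1) → Cn (k + 1), AnalyticAt ℂ υ x ∧
      ∀ᶠ x' in 𝓝 x, ∀ hx' : x' ≠ 0, Projectivization.mk ℂ x' hx' ∈ projVar Q → u (Projectivization.mk ℂ x' hx') = pt Λ (υ x')) : Lft Q Λ (Lf u) := by
  constructor
  · intro a ha
    obtain ⟨y, hy⟩ := QuotientAddGroup.mk_surjective (u (Projectivization.mk ℂ a ha.1))
    exact ⟨y, ha.1, hy.symm⟩
  · rintro a y ⟨ha, hy⟩ y'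
    constructor
    · rintro ⟨_, hy'⟩
      have h1 : pt Λ y = pt Λ y' := hy.symm.trans hy'
      have h2 := QuotientAddGroup.eq.1 h1
      rwa [neg_add_eq_sub] at h2
    · intro h
      refine ⟨ha, hy.trans (QuotientAddGroup.eq.2 ?_)⟩
      rwa [neg_add_eq_sub]
  · rintro γ hγ hcone y₀ ⟨h0, hy₀⟩
    obtain ⟨υ, hυ, h1⟩ := hu (γ 0) h0 (mem_of_cone hcone.self_of_nhds)
    have h2 : pt Λ y₀ = pt Λ (υ (γ 0)) := hy₀.symm.trans (h1.self_of_nhds h0 (mem_of_cone hcone.self_of_nhds))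
    have h3 : y₀ - υ (γ 0) ∈ Λ := by
      have h4 := QuotientAddGroup.eq.1 h2.symm
      rwa [neg_add_eq_sub] at h4
    refine ⟨fun t => υ (γ t) + (y₀ - υ (γ 0)), (hυ.comp hγ).add analyticAt_const, by simp, ?_⟩
    filter_upwards [hcone, hγ.continuousAt.eventually h1] with t ht1 ht2
    refine ⟨ht1.1, (ht2 ht1.1 (mem_of_cone ht1)).trans (QuotientAddGroup.eq.2 ?_)⟩
    rwa [neg_add_cancel_left]

theorem vmap_of
    (hv : ∀ x ∈ projVar Q, ∃ (D : ℕ) (γ : Fin 2 → MvPolynomial (Fin (N + 1)) ℂ), (∀ i, (γ i).IsHomogeneous D) ∧ vals γ x.rep ≠ 0 ∧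
      ∀ x' ∈ projVar Q, vals γ x'.rep ≠ 0 → v x' = rmap γ x') : VMap Q (Vf v) := by
  intro a ha
  obtain ⟨D, γ, hγ, h1, h2⟩ := hv _ (mem_of_cone ha)
  have key : ∀ {a : Fin (N + 1) → ℂ} (ha : a ≠ 0), vals γ (Projectivization.mk ℂ a ha).rep ≠ 0 ↔ ∃ i, eval a (γ i) ≠ 0 := by
    intro a ha
    obtain ⟨c, hc, hrep⟩ := exists_rep_smul ha
    rw [hrep, vals_smul hγ, Ne, smul_eq_zero_iff_right (pow_ne_zero _ hc), ← Ne, Function.ne_iff]
    exact Iff.rfl
  refine ⟨D, γ, hγ, (key ha.1).1 h1, fun a' ha' hne q => ?_⟩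
  have h3 : vals γ a' ≠ 0 := Function.ne_iff.2 hne
  have h4 : v (Projectivization.mk ℂ a' ha'.1) = Projectivization.mk ℂ (vals γ a') h3 := by
    rw [h2 _ (mem_of_cone ha') ((key ha'.1).2 hne), rmap_mk hγ ha'.1 h3]
  constructor
  · rintro ⟨_, hq, h5⟩
    rw [h4, Projectivization.mk_eq_mk_iff'] at h5
    obtain ⟨c, hc⟩ := h5
    have hc0 : c ≠ 0 := by
      rintro rfl
      rw [zero_smul] at hc
      exact h3 hc.symm
    refine ⟨c⁻¹, inv_ne_zero hc0, ?_⟩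
    funext i
    have h6 := congrFun hc i
    simp only [Pi.smul_apply, smul_eq_mul] at h6
    change q i = c⁻¹ * vals γ a' i
    rw [← h6, inv_mul_cancel_left₀ hc0]
  · rintro ⟨c, hc, rfl⟩
    have hq : (fun i => c * eval a' (γ i)) ≠ 0 := by
      intro h0
      apply h3
      funext i
      exact (mul_eq_zero.1 (congrFun h0 i)).resolve_left hc
    refine ⟨ha'.1, hq, ?_⟩
    rw [h4, Projectivization.mk_eq_mk_iff']
    refine ⟨c⁻¹, ?_⟩
    funext i
    simp only [Pi.smul_apply, smul_eq_mul]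
    rw [inv_mul_cancel_left₀ hc]
    rfl

theorem fin_of (hfin : ∀ x ∈ projVar Q, {x' | x' ∈ projVar Q ∧ u x' = u x ∧ v x' = v x}.Finite) (γ : ℂ → Fin (N + 1) → ℂ) (y : Cn (k + 1)) (q : Cn 2) (hγ : AnalyticAt ℂ γ 0)
    (hc : ∀ᶠ t in 𝓝 (0 : ℂ), Cone Q (γ t)) (hL : ∀ᶠ t in 𝓝 (0 : ℂ), Lf (Λ := Λ) u (γ t) y) (hV : ∀ᶠ t in 𝓝 (0 : ℂ), Vf v (γ t) q) : ∀ᶠ t in 𝓝 (0 : ℂ), ∃ c : ℂ, γ t = c • γ 0 := by
  have h0 : Cone Q (γ 0) := hc.self_of_nhds
  set x₀ := Projectivization.mk ℂ (γ 0) h0.1 with hx₀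
  have hfin' := hfin x₀ (mem_of_cone h0)
  obtain ⟨_, hL0⟩ := hL.self_of_nhds
  obtain ⟨_, hq, hV0⟩ := hV.self_of_nhds
  -- the curve avoids the other points of the fibre
  have h1 : ∀ p ∈ {x' | x' ∈ projVar Q ∧ u x' = u x₀ ∧ v x' = v x₀} \ {x₀}, ∀ᶠ t in 𝓝 (0 : ℂ), γ t ∉ Submodule.span ℂ {p.rep} := by
    intro p hp
    have hcl : IsClosed (Submodule.span ℂ {p.rep} : Set (Fin (N + 1) → ℂ)) := Submodule.closed_of_finiteDimensional _
    have hn : γ 0 ∉ (Submodule.span ℂ {p.rep} : Set (Fin (N + 1) → ℂ)) := by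
      intro h2
      obtain ⟨c, hc'⟩ := Submodule.mem_span_singleton.1 h2
      apply hp.2
      rw [Set.mem_singleton_iff, ← p.mk_rep, hx₀, eq_comm, Projectivization.mk_eq_mk_iff']
      exact ⟨c, hc'⟩
    exact hγ.continuousAt.eventually (hcl.isOpen_compl.mem_nhds hn)
  have h2 := (Filter.eventually_all_finite (hfin'.subset Set.sdiff_subset)).2 h1
  filter_upwards [h2, hc, hL, hV] with t ht hct hLt hVt
  obtain ⟨ht0, hLt⟩ := hLt
  obtain ⟨_, _, hVt⟩ := hVt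
  by_contra hcon
  set p := Projectivization.mk ℂ (γ t) ht0 with hp
  have hpx : p ≠ x₀ := by
    intro h3
    rw [hp, hx₀, Projectivization.mk_eq_mk_iff'] at h3
    obtain ⟨c, hc'⟩ := h3
    exact hcon ⟨c, hc'.symm⟩
  refine ht p ⟨⟨mem_of_cone hct, hLt.trans hL0.symm, hVt.trans hV0.symm⟩, hpx⟩ ?_
  obtain ⟨c, hc0, hrep⟩ := exists_rep_smul ht0
  rw [← hp] at hrep
  rw [hrep]
  refine Submodule.mem_span_singleton.2 ⟨c⁻¹, ?_⟩
  rw [smul_smul, inv_mul_cancel₀ hc0, one_smul]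

theorem geo_of [Q.IsPrime] (hF : IsHolomorphicForm Set.univ F d) (hA : IsAmple Λ F) (h : LGData Λ F Q G u v) {j₀ : Fin (N + 1)} (hj : coordFun Q j₀ ≠ 0) :
    Geo Q (fun i => ratio Q i j₀) Λ (tht d F) (Lf u) (Vf v) G := by
  have hhom : ∀ y, (F y).IsHomogeneous d := fun y => hF.homogeneous y (Set.mem_univ y)
  obtain ⟨x, hx, hfew⟩ := h.few
  obtain ⟨y, hy⟩ := QuotientAddGroup.mk_surjective (u x)
  have h3 : Pool.Agent.HEF.HasThreeZeros (F y) := by
    by_contra hcon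
    exact hfew ⟨y, hy, hcon⟩
  have hne : F y ≠ 0 := by
    intro h0
    refine (h.maps x hx).2 y hy 0 ?_
    change eval _ (F y) = 0
    rw [h0, map_zero]
  refine ⟨inferInstance, h.homog, gp_of hj, lft_of h.torus, reg_of hF hA ⟨y, hne⟩ h.regularTorus, vmap_of h.regular, h.forms, ?_, fin_of h.finite, ?_⟩
  · rintro a y' q ha hm ⟨_, hy'⟩ ⟨_, hq, hv⟩ h0
    have h4 := (h.maps _ (loc_of_cone h.forms ha hm)).2 y' hy'.symm 0
    apply h4
    change VanishesAt (F y') (v (Projectivization.mk ℂ a ha.1))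
    rw [hv, vanishesAt_mk_iff (hhom y') q hq, ← eval_form (hhom y')]
    exact h0
  · obtain ⟨hxQ, m, hxm⟩ := hx
    have hx0 : x.rep ≠ 0 := x.rep_nonzero
    have hxmk : Projectivization.mk ℂ x.rep hx0 = x := x.mk_rep
    refine ⟨x.rep, y, cone_of_mem h.homog hx0 (by rw [hxmk]; exact hxQ), ⟨m, hxm⟩, ⟨hx0, by rw [hxmk]; exact hy.symm⟩, (three_zeros_iff (hhom y)).1 h3⟩

end Pool.Agent.COT
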