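import Pool.Agent.PX.S.Defs
import Pool.Agent.PX.F.Poly
import Pool.Agent.PX.F.Ggl
import Pool.Agent.HE.F.Main

/-!
# PX S Tr: the definitions of the final theorem and the definitions used in the proof
-/

set_option autoImplicit false

open Topology Filter MvPolynomial
open Pool.Agent.H17 (PN VanishesAt HolomorphicInto)
open Pool.Agent.H62.SA (locVar)

noncomputable section

namespace Pool.Agent.COT

variable {k m q N d : ℕ} {Λ : Sub k} {T : Set (Prd Λ m)} {S : Set (Torus Λ)} {X : Set (Prd Λ m)} {F : Fin q → Poly k m}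

theorem IsCurveIn.to {t : ℂ → Torus Λ} {g : ℂ → PN m} {U : Set ℂ} (h : IsCurveIn Λ T t g U) : PXF.IsCurveIn Λ T t g U := ⟨h.torus, h.proj, h.mem⟩

theorem hyperbolic_of (h : PXF.IsHyperbolicModulo Λ T S) : IsHyperbolicModulo Λ T S where
  discs := by
    obtain ⟨C, hC⟩ := h.discs
    exact ⟨C, fun f g hf hg => hC f g hf hg.to⟩
  entire := fun t g hg => h.entire t g hg.to
  punctured := fun t g hg => h.punctured t g hg.to

theorem hyperbolic_to (h : IsHyperbolicModulo Λ T S) : PXF.IsHyperbolicModulo Λ T S where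
  discs := by
    obtain ⟨C, hC⟩ := h.discs
    exact ⟨C, fun f g hf hg => hC f g hf ⟨hg.torus, hg.proj, hg.mem⟩⟩
  entire := fun t g hg => h.entire t g ⟨hg.torus, hg.proj, hg.mem⟩
  punctured := fun t g hg => h.punctured t g ⟨hg.torus, hg.proj, hg.mem⟩

theorem kobayashi_of (h : HEF.KobayashiPositive Λ T S) : KobayashiPositive Λ T S := by
  intro y hy hp
  obtain ⟨C, hC⟩ := h y hy hp
  exact ⟨C, hC.mono fun y' hy' t g φ hg => hy' t g φ hg.to⟩

theorem IsFiniteOver.to {P : Ideal (MvPolynomial (Fin (N + 1)) ℂ)} {s : ℕ} {G : Fin s → MvPolynomial (Fin (N + 1)) ℂ} {u : PN N → Torus Λ} {v : PN N → PN m} (h : IsFiniteOver P G Λ T S u v) :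
    PXF.IsFiniteOver P G Λ T S u v := ⟨h.torus, h.regular, h.finite, h.maps, h.special⟩

theorem IsHolomorphicForm.to {U : Set (Cn (k + 1))} {F : Poly k m} (h : IsHolomorphicForm U F d) : HEF.IsHolomorphicForm U F d := ⟨h.homogeneous, h.holomorphic⟩

theorem IsSection.to {F : Poly k m} {r : ℕ} {W : Fin r → Cn (k + 1) →L[ℂ] ℂ} (h : IsSection Λ F W) : HEF.IsSection Λ F W := by
  obtain ⟨d, hd, hF⟩ := h.form
  exact ⟨⟨d, hd, hF.to⟩, h.quasiPeriodic⟩

theorem ample_to {F : Poly k m} (h : IsAmple Λ F) : HEF.IsAmple Λ F := by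
  obtain ⟨r, W, hW, h⟩ := h
  exact ⟨r, W, hW, h.to⟩

theorem semi_to {F : Poly k m} (h : IsSemipositive Λ F) : HEF.IsSemipositive Λ F := by
  obtain ⟨r, W, h⟩ := h
  exact ⟨r, W, h.to⟩

theorem analytic_to (h : IsAnalytic Λ X) : HEF.IsAnalytic Λ X := by
  intro y₀
  obtain ⟨ρ, s, G, d, hρ, hG, hX⟩ := h y₀
  exact ⟨ρ, s, G, d, hρ, fun i => (hG i).to, hX⟩

theorem fibre_to {y₀ : Cn (k + 1)} (h : HasHyperbolicFibre Λ X F y₀) : HEF.HasHyperbolicFibre Λ X F y₀ := by
  obtain ⟨ρ, s, Q, e, hρ, hQ, hX, h⟩ := h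
  exact ⟨ρ, s, Q, e, hρ, fun i => (hQ i).to, hX, h⟩

theorem IsReducedDivisor.to {F : Poly k 1} (h : IsReducedDivisor Λ F d) : HEF.IsReducedDivisor Λ F d :=
  ⟨h.simple, h.degree, h.form.to, ample_to h.ample, h.simpleZeros, h.codimension⟩

theorem IsHyperbolicOff.to (h : IsHyperbolicOff Λ X F S) : HEF.IsHyperbolicOff Λ X F S where
  analytic := analytic_to h.analytic
  sections := fun j => semi_to (h.sections j)
  special := h.special
  noLines := h.noLines
  noSections := fun y a g ha hg => by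
    obtain ⟨j, hj, z, hz, hv⟩ := h.noSections y a g ha ⟨hg.holomorphic, hg.mem, hg.inOrOff⟩
    exact ⟨j, ample_to hj, z, hz, hv⟩
  fibres := fun y hy => fibre_to (h.fibres y hy)
  overSpecial := h.overSpecial

end Pool.Agent.COT
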