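import Pool.Agent.PX.S.DefsT
import Pool.Agent.PX.S.Tr

/-!
# PX S Top: the four properties for the varieties over the complement of an ample divisor of `A × ℙ¹`
-/

set_option autoImplicit false

open Topology Filter Metric MvPolynomial
open Pool.Agent.H17 (PN VanishesAt HolomorphicInto puncturedDisc ZariskiClosedIn)
open Pool.Agent.H17EF (projVar)
open Pool.Agent.H17LG.Variety (FunField IsLogGeneralType)
open Pool.Agent.H62.FC (Homog)
open Pool.Agent.H62.SA (locVar OnBd)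
open Pool.Agent.G4F (GGLCOpen)
open Pool.Agent.TG (Lat)
open Pool.Agent.H7.Bir (vals rmap)

noncomputable section

namespace Pool.Agent.COT

variable {k m N s : ℕ} {Λ : Sub k}

/-- The data of the theorem on varieties of log general type. -/
structure LGData (Λ : Sub k) (F : Poly k 1) (P : Ideal (MvPolynomial (Fin (N + 1)) ℂ)) (G : Fin s → MvPolynomial (Fin (N + 1)) ℂ) (u : PN N → Torus Λ) (v : PN N → PN 1) : Prop where
  homog : Homog P
  forms : ∀ i, ∃ n, (G i).IsHomogeneous n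
  torus : ∀ (x : Cn (N + 1)) (hx : x ≠ 0), Projectivization.mk ℂ x hx ∈ projVar P → ∃ υ : Cn (N + 1) → Cn (k + 1), AnalyticAt ℂ υ x ∧
    ∀ᶠ x' in 𝓝 x, ∀ hx' : x' ≠ 0, Projectivization.mk ℂ x' hx' ∈ projVar P → u (Projectivization.mk ℂ x' hx') = pt Λ (υ x')
  regular : ∀ x ∈ projVar P, ∃ (D : ℕ) (γ : Fin 2 → MvPolynomial (Fin (N + 1)) ℂ), (∀ i, (γ i).IsHomogeneous D) ∧ vals γ x.rep ≠ 0 ∧
    ∀ x' ∈ projVar P, vals γ x'.rep ≠ 0 → v x' = rmap γ x'
  finite : ∀ x ∈ projVar P, {x' | x' ∈ projVar P ∧ u x' = u x ∧ v x' = v x}.Finite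
  maps : ∀ x ∈ locVar P G, (u x, v x) ∈ outside Λ Set.univ fun _ : Fin 1 => F
  regularTorus : IsRegularTorusMap P Λ u
  few : ∃ x ∈ locVar P G, u x ∉ fewZeros Λ F

end Pool.Agent.COT
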